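import Pool.Agent.Helper60.Pack.Defs
import Pool.Agent.Helper19.Pack.Lists
import Pool.Agent.Helper19.Pack.Bound
import Pool.Agent.Helper60.Pack.Low14

/-!
The maximum of the list packing number over all finite planar triangle-free graphs is four.

Upper bound: a planar triangle-free graph on `n ≥ 3` vertices has at most `2n - 4` edges (proved here from
the absence of `K₅` and `K₃,₃` minors), hence every nonempty vertex set `S` spans at most `2|S| - 2` edges;
such graphs have a packing for every correspondence cover with four colours at each vertex
(`Pack.packing`), in particular for lists of size four.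
Lower bound: an explicit planar triangle-free graph with lists of size three without packing.
-/

set_option autoImplicit false

namespace Pool.Agent.Results.MP_be0db5_co.ListPackingFour

open Pool.Agent.Helper60.Pack

/-- The maximum value of the list packing number of a planar triangle-free graph is four. -/
theorem result : IsGreatest {k : ℕ | ∃ (V : Type) (_ : Fintype V) (G : SimpleGraph V),
    Planar G ∧ G.CliqueFree 3 ∧ listPackingNumber G = k} 4 := by
  classical
  have up : ∀ (V : Type) (_ : Fintype V) (G : SimpleGraph V), Planar G → G.CliqueFree 3 →
      Packable G 4 := fun V _ G hP h3 =>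
    packable_four G (fun S hS => sparse_of_planar G h3 hP S hS)
  constructor
  · obtain ⟨V, hV, G, hP, h3, h1, h2, h3'⟩ := lower
    refine ⟨V, hV, G, hP, h3, ?_⟩
    apply le_antisymm
    · exact Nat.sInf_le ⟨by norm_num, up V hV G hP h3⟩
    · refine le_csInf ⟨4, by norm_num, up V hV G hP h3⟩ ?_
      rintro k ⟨hk1, hk⟩
      by_contra hlt
      push Not at hlt
      interval_cases k
      · exact h1 hk
      · exact h2 hk
      · exact h3' hk
  · rintro k ⟨V, hV, G, hP, h3, rfl⟩
    exact Nat.sInf_le ⟨by norm_num, up V hV G hP h3⟩

end Pool.Agent.Results.MP_be0db5_co.ListPackingFour
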